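import Pool.Agent.H31.CP

open Pool.Agent.H31.CP

theorem Pool.Agent.Results.MP_339db1_al.Main.result (M : Type) [Monoid M] (C : CP M) :
    (IsInitial C → G C ≠ ⊤) ∧ (Nontrivial M → G C ≠ ⊤) :=
  ⟨init, fun _ => ne_top⟩
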